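import Pool.Agent.Run7.h242.SC.Iface

/-!
# Piece INW of the project SC: the limit map is in the weak closure
-/

set_option autoImplicit false

namespace Run7.h781.SC

open Run7.h242.SC MeasureTheory Set Filter Topology Metric
open scoped ContDiff ENNReal NNReal

theorem contOn_of_ball {n : ℕ} {Ω : Set (E n)} (hΩ : IsOpen Ω) {C : ℝ≥0} {f : E n → E n}
    (h : ∀ x r, ball x r ⊆ Ω → LipschitzOnWith C f (ball x r)) : ContinuousOn f Ω := by
  intro x hx
  obtain ⟨r, hr, hball⟩ := Metric.isOpen_iff.1 hΩ x hx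
  exact ((h x r hball).continuousOn.continuousAt (ball_mem_nhds x hr)).continuousWithinAt

theorem lip_coord {n : ℕ} {s : Set (E n)} {C : ℝ≥0} {f : E n → E n} (h : LipschitzOnWith C f s)
    (i : Fin n) : LipschitzOnWith C (fun x => f x i) s := by
  refine LipschitzOnWith.of_dist_le_mul fun x hx y hy => ?_
  have h1 := h.dist_le_mul x hx y hy
  refine le_trans ?_ h1
  rw [dist_eq_norm, dist_eq_norm]
  exact abs_coord_le (f x - f y) i

theorem contOn_coord {n : ℕ} {s : Set (E n)} {f : E n → E n} (h : ContinuousOn f s)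
    (i : Fin n) : ContinuousOn (fun x => f x i) s := by
  have h1 : Continuous fun y : E n => y i := by fun_prop
  exact h1.comp_continuousOn h

/-- Bounded functions. -/
theorem memLp_bdd {n : ℕ} {Ω : Set (E n)} (hΩ : IsOpen Ω) (hfin : volume Ω < ⊤) {g : E n → ℝ}
    (hg : AEStronglyMeasurable g (volume.restrict Ω)) {B : ℝ} (hB : ∀ x ∈ Ω, |g x| ≤ B)
    (p : ℝ≥0∞) : MemLp g p (volume.restrict Ω) := by
  have : IsFiniteMeasure (volume.restrict Ω) := ⟨by rwa [Measure.restrict_apply_univ]⟩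
  exact MemLp.of_bound hg B (ae_restrict_of_forall_mem hΩ.measurableSet hB)

theorem inW_of {n : ℕ} {Ω : Set (E n)} (hΩ : IsOpen Ω) (hfin : volume Ω < ⊤) {B C : ℝ}
    {f : E n → E n} (hf : ContinuousOn f Ω) (hfB : ∀ x ∈ Ω, ‖f x‖ ≤ B)
    {G : Fin n → E n → Fin n → ℝ} (hGm : ∀ i j, Measurable fun x => G i x j)
    (hGC : ∀ i x j, |G i x j| ≤ C)
    (hG : ∀ i j, ∀ φ : E n → ℝ, ContDiff ℝ ∞ φ → HasCompactSupport φ → tsupport φ ⊆ Ω →
        ∫ x in Ω, f x i * fderiv ℝ φ x (ee j) = - ∫ x in Ω, G i x j * φ x) (p : ℝ≥0∞) :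
    InW p Ω f (fun x i j => G i x j) where
  f_mem := fun i => memLp_bdd hΩ hfin
    ((contOn_coord hf i).aestronglyMeasurable hΩ.measurableSet)
    (fun x hx => (abs_coord_le _ _).trans (hfB x hx)) p
  G_mem := fun i j => memLp_bdd hΩ hfin (hGm i j).aestronglyMeasurable
    (fun x _ => hGC i x j) p
  weak := fun i j => hG i j

theorem t_INW (hFK : S_FK) (hIOD : S_IOD) (hWG : S_WG) (hCPT : S_CPT) (hWK : S_WK) (hTOP : S_TOP)
    (hGAMB : S_GAMB) : S_INW := by
  intro m
  obtain ⟨hO, -, hbd, hbd'⟩ := hTOP m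
  have hbd' := hbd' hGAMB
  have hfin : volume (Om m) < ⊤ := hbd.measure_lt_top
  obtain ⟨C, hC⟩ := hFK m
  choose F hFc hFi hFim hFL hFT using fun k : ℕ => hC (k + 1) (by omega)
  obtain ⟨B, hB⟩ := hbd'.exists_norm_le
  have hFB : ∀ k, ∀ x ∈ Om m, ‖F k x‖ ≤ B := fun k x hx =>
    hB _ (by rw [← hFim k]; exact mem_image_of_mem _ hx)
  obtain ⟨σ, f, hσ, hf, hfL⟩ := hCPT (m + 3) (Om m) C B F hO hFL hFB
  have hfc : ContinuousOn f (Om m) := contOn_of_ball hO hfL
  have hfB : ∀ x ∈ Om m, ‖f x‖ ≤ B := fun x hx =>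
    le_of_tendsto (hf x hx).norm (Eventually.of_forall fun k => hFB (σ k) x hx)
  have hfcl : ∀ x ∈ Om m, f x ∈ closure (Om' m) := fun x hx =>
    mem_closure_of_tendsto (hf x hx) (Eventually.of_forall fun k => by
      rw [← hFim (σ k)]
      exact mem_image_of_mem _ hx)
  refine ⟨f, ?_, ?_⟩
  · intro x hx
    have hxO : x ∈ Om m := hx.1
    have h1 : Tendsto (fun k => pr (F (σ k) x)) atTop (𝓝 (pr (f x))) :=
      (continuous_pr.tendsto _).comp (hf x hxO)
    have h2 : Tendsto (fun k => pr (F (σ k) x)) atTop (𝓝 0) := by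
      refine squeeze_zero_norm (fun k => (hFT (σ k) x hx).1) ?_
      have h3 : Tendsto (fun k : ℕ => 4 * (1 / 2 : ℝ) ^ (k + 1)) atTop (𝓝 (4 * 0)) :=
        (((tendsto_pow_atTop_nhds_zero_of_lt_one (by norm_num) (by norm_num)).comp
          (tendsto_add_atTop_nat 1)).const_mul 4)
      rw [mul_zero] at h3
      exact h3.comp hσ.tendsto_atTop
    have h3 : pr (f x) = 0 := tendsto_nhds_unique h1 h2
    refine ⟨?_, ?_, ?_, ?_⟩
    · have h4 := congrArg (fun p : ℂ × ℝ => p.1.re) h3
      simpa using h4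
    · have h4 := congrArg (fun p : ℂ × ℝ => p.1.im) h3
      simpa using h4
    · have h4 := congrArg (fun p : ℂ × ℝ => p.2) h3
      simpa using h4
    · intro i hi
      have h4 : Continuous fun y : E (m + 3) => y i := by fun_prop
      have h5 : Tendsto (fun k => F (σ k) x i) atTop (𝓝 (f x i)) :=
        (h4.tendsto _).comp (hf x hxO)
      have h6 : Tendsto (fun k => F (σ k) x i) atTop (𝓝 (x i)) := by
        have h7 : (fun k => F (σ k) x i) = fun _ => x i := funext fun k => (hFT (σ k) x hx).2 i hi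
        rw [h7]
        exact tendsto_const_nhds
      exact tendsto_nhds_unique h5 h6
  · intro p hp hp'
    choose G hGm hGC hG using fun i => hWG (m + 3) (Om m) C (fun x => f x i) hO
      (fun x r hxr => lip_coord (hfL x r hxr) i)
    choose Gk hGkm hGkC hGk using fun k i => hWG (m + 3) (Om m) C (fun x => F (σ k) x i) hO
      (fun x r hxr => lip_coord (hFL (σ k) x r hxr) i)
    refine ⟨fun x i j => G i x j, inW_of hO hfin hfc hfB hGm hGC hG p,
      ae_restrict_of_forall_mem hO.measurableSet hfcl, fun k => F (σ k),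
      fun k x i j => Gk k i x j, ?_, ?_⟩
    · intro k
      refine ⟨?_, inW_of hO hfin (hFc (σ k)) (hFB (σ k)) (hGkm k) (hGkC k) (hGk k) p⟩
      have h1 := (hIOD (m + 3) (Om m) (F (σ k)) hO (hFc _) (hFi _)).2.1
      rwa [hFim] at h1
    · intro q hq ψ hψ
      have : IsFiniteMeasure (volume.restrict (Om m)) := ⟨by rwa [Measure.restrict_apply_univ]⟩
      have hψ1 : IntegrableOn ψ (Om m) := hψ.integrable hq.symm.one_le
      have key : ∀ i j, Tendsto (fun k => ∫ x in Om m, F (σ k) x i * ψ x) atTop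
          (𝓝 (∫ x in Om m, f x i * ψ x)) ∧
        Tendsto (fun k => ∫ x in Om m, Gk k i x j * ψ x) atTop
          (𝓝 (∫ x in Om m, G i x j * ψ x)) := by
        intro i j
        refine hWK (m + 3) (Om m) j (max B C) (fun k x => F (σ k) x i) (fun k x => Gk k i x j)
          (fun x => f x i) (fun x => G i x j) hO hfin (fun k => contOn_coord (hFc _) i)
          (contOn_coord hfc i) (fun k => hGkm k i j) (hGm i j) ?_ ?_ ?_ ?_
          (fun k => hGk k i j) (hG i j) ψ hψ1
        · intro k x hx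
          exact (abs_coord_le _ _).trans ((hFB _ x hx).trans (le_max_left _ _))
        · intro k x
          exact (hGkC k i x j).trans (le_max_right _ _)
        · intro x
          exact (hGC i x j).trans (le_max_right _ _)
        · intro x hx
          have h4 : Continuous fun y : E (m + 3) => y i := by fun_prop
          exact (h4.tendsto _).comp (hf x hx)
      exact ⟨fun i => (key i 0).1, fun i j => (key i j).2⟩

end Run7.h781.SC
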